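import Pool.Agent.Helper793.Kak5.Main

set_option autoImplicit false

namespace Pool.Agent.Results.MP_4d3999_nt.LowerExponent

/-- Kakutani's `5x+1` map: `n/2` if `n` is even, `n/3` if `n` is odd and divisible by `3`,
`5n+1` otherwise. -/
def C (n : ℕ) : ℕ := if n % 2 = 0 then n / 2 else if n % 3 = 0 then n / 3 else 5 * n + 1

/-- For every real `ρ < log 25 / log 12 = 1.2953...` there are infinitely many `n` whose maximum
excursion exceeds `n ^ ρ`; explicitly, if `13 n + 7 = 20 * 12 ^ (2 m)` then the iterate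
`C^[10 m] n` is the integer `x` with `13 x + 7 = 20 * 25 ^ (2 m)`. -/
theorem result :
    (∀ ρ : ℝ, ρ < Real.log 25 / Real.log 12 →
      ∀ N : ℕ, ∃ n : ℕ, N < n ∧ ∃ i : ℕ, (n : ℝ) ^ ρ < ((C^[i] n : ℕ) : ℝ)) ∧
    (∀ m : ℕ, ∃ n x : ℕ, 13 * n + 7 = 20 * 12 ^ (2 * m) ∧ 13 * x + 7 = 20 * 25 ^ (2 * m) ∧
      C^[10 * m] n = x) := by
  have hC : C = Pool.Helper793.Kak5.C := rfl
  rw [hC]
  refine ⟨Pool.Helper793.Kak5.main, fun m => ?_⟩
  obtain ⟨n, hn⟩ := Pool.Helper793.Kak5.start m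
  obtain ⟨x, hx, hx2⟩ := Pool.Helper793.Kak5.steps (2 * m) (2 * m) le_rfl n hn
  rw [Nat.sub_self, pow_zero, mul_one] at hx2
  refine ⟨n, x, hn, hx2, ?_⟩
  have : 10 * m = 5 * (2 * m) := by ring
  rw [this]
  exact hx

end Pool.Agent.Results.MP_4d3999_nt.LowerExponent
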